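import Pool.Agent.H249R3.Sub.Main
import Pool.Agent.H943R3.PP.M4

/-!
# The probability that a `PP^PH` algorithm with advice is right for many inputs
-/

set_option autoImplicit false

namespace Pool.Agent.H440P

open Pool.Agent.NPC hiding inp
open Finset H568R2 Pool.Agent.H676 Pool.Agent.H620R2.Gauge
  Pool.Agent.H622R2 Pool.Agent.H943R3.PP Pool.Agent.H249R3.Sub

theorem maj_xorv {I : Type} (e : I → Bool) (m : ℕ) (F : List Bool → (I → Bool) → Bool)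
    (k r : ℕ) (y : List Bool) (a : I → Bool) :
    maj m (fun y a => F y (xorv e a)) k r y a = maj m F k r y (xorv e a) := by
  unfold maj
  simp only [qf_xorv]

variable (D : Set (List Bool)) (B : Oracle)

/-- the event for advice of length `c` -/
def EvX2 (θ : Par2) (N i l c : ℕ) (X : Finset (List Bool)) (a : Fin N → Bool) : Prop :=
  ∃ h ∈ strsOf c, ∀ x ∈ X, (0 < maj (θ.m (2 * i + 1 + l) c) (leafP D B θ.M N) θ.k
    (θ.rr (2 * i + 1 + l) c) (pairBits (inp x l) h) a ↔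
      (par (blkD D N x l) a ^^ cst D B x l) = true)

open Classical in
theorem evX2_bound (θ : Par2) {N i l c t r s : ℕ} (X : Finset (List Bool))
    (hX : ∀ x ∈ X, x.length = i) (hc : c ≤ θ.p'.eval (2 * i + 1 + l)) (ht : 1 ≤ t)
    (hP : θ.M.p.eval (θ.L.eval (2 * i + 1 + l)) ≤ t)
    (hr : 16 * (2 * X.card ^ 2 * (θ.rr (2 * i + 1 + l) c + 3) * t + 1) ^ 2 ≤ r)
    (hs0 : 1 ≤ s) (hs : ∀ x ∈ X, (r + 1) * s ≤ (blkD D N x l).card) :
    Ex unif (fun a : Fin N → Bool => if EvX2 D B θ N i l c X a then (1 : ℝ) else 0) ≤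
      θ.k * 2 ^ (θ.L.eval (2 * i + 1 + l) + 2) * (1 / 2) ^ (t + 1) +
      X.card * ((r + 1) * (1 - (1 / (24 * (t : ℝ))) ^ θ.k) ^ s) +
      2 ^ c * (3 / 4) ^ X.card := by
  have htR : (1 : ℝ) ≤ (t : ℝ) := by exact_mod_cast ht
  set q : ℝ := 1 / (24 * t) with hq
  have hq0 : 0 ≤ q := by positivity
  have hq1 : q ≤ 1 / 3 := by
    rw [hq, div_le_div_iff₀ (by positivity) (by norm_num)]
    linarith
  have hdisj : ∀ x ∈ X, ∀ x' ∈ X, x ≠ x' → Disjoint (blkD D N x l) (blkD D N x' l) := by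
    intro x hx x' hx' hne
    exact blkD_disj D N x x' l (by rw [hX x hx, hX x' hx']) hne
  have hnon : ∀ x ∈ X, (blkD D N x l).Nonempty := by
    intro x hx
    rw [← Finset.card_pos]
    have h1 := hs x hx
    have h2 : 0 < (r + 1) * s := by positivity
    omega
  obtain ⟨e, he⟩ := exists_flip X (fun x => blkD D N x l) hdisj hnon (fun x => cst D B x l)
  set n := 2 * i + 1 + l with hn
  have hlen := M4.len_le θ hc
  have h1 := comb2 (I := Fin N) ht hq0 hq1 (θ.m n c) (fun y a => leafP D B θ.M N y (xorv e a)) θ.k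
    (2 * n + 1 + c) (θ.rr n c) (by
      intro y hy
      apply dtr_xorv
      refine (dtr_leafP D B θ.M N y).mono ?_
      calc θ.M.p.eval y.length ≤ θ.M.p.eval (θ.L.eval n) := eval_mono _ (by omega)
        _ ≤ t := hP) X (fun x => blkD D N x l) hdisj (strsOf c)
      (fun x h => pairBits (inp x l) h) (by
      intro x hx h hh
      obtain ⟨i, _, rfl⟩ := Finset.mem_image.1 hh
      rw [length_pairBits, length_inp, hX x hx, length_bitsOf]) r s hr hs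
  have h2 : Ex unif (fun a : Fin N → Bool => if EvX2 D B θ N i l c X a then (1 : ℝ) else 0) =
      Ex unif (fun a : Fin N → Bool =>
      if ∃ h ∈ strsOf c, ∀ x ∈ X, (0 < maj (θ.m n c) (fun y a => leafP D B θ.M N y (xorv e a)) θ.k
        (θ.rr n c) (pairBits (inp x l) h) a ↔ par (blkD D N x l) a = true)
        then (1 : ℝ) else 0) := by
    rw [← ex_xorv e]
    congr 1
    funext a
    have h3 : EvX2 D B θ N i l c X (xorv e a) ↔
        ∃ h ∈ strsOf c, ∀ x ∈ X, (0 < maj (θ.m n c)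
          (fun y a => leafP D B θ.M N y (xorv e a)) θ.k
          (θ.rr n c) (pairBits (inp x l) h) a ↔ par (blkD D N x l) a = true) := by
      unfold EvX2
      refine exists_congr fun h => and_congr_right fun _ => forall_congr' fun x =>
        forall_congr' fun hx => ?_
      rw [maj_xorv, he x hx a, Bool.xor_assoc, Bool.xor_self, Bool.xor_false]
    by_cases h4 : EvX2 D B θ N i l c X (xorv e a)
    · rw [if_pos h4, if_pos (h3.1 h4)]
    · rw [if_neg h4, if_neg (fun h5 => h4 (h3.2 h5))]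
  rw [h2]
  refine h1.trans ?_
  have hqt : 12 * (t : ℝ) * q = 1 / 2 := by
    rw [hq]; field_simp; norm_num
  rw [hqt]
  have h3 : (2 : ℝ) ^ (2 * n + 1 + c + (2 * θ.rr n c + 1) + θ.k * (2 * θ.m n c + 1) + 2) ≤
      2 ^ (θ.L.eval n + 2) :=
    pow_le_pow_right₀ (by norm_num) (by omega)
  have h4 : ((strsOf c).card : ℝ) ≤ 2 ^ c := by exact_mod_cast card_strsOf c
  have h6 : (0 : ℝ) ≤ (1 / 2) ^ (t + 1) := by positivity
  have h7 : (0 : ℝ) ≤ (3 / 4) ^ X.card := by positivity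
  have h8 : (θ.k : ℝ) * 2 ^ (2 * n + 1 + c + (2 * θ.rr n c + 1) + θ.k * (2 * θ.m n c + 1) + 2) *
      (1 / 2) ^ (t + 1) ≤ θ.k * 2 ^ (θ.L.eval n + 2) * (1 / 2) ^ (t + 1) :=
    mul_le_mul_of_nonneg_right (mul_le_mul_of_nonneg_left h3 (by positivity)) h6
  have h9 : ((strsOf c).card : ℝ) * (3 / 4) ^ X.card ≤ 2 ^ c * (3 / 4) ^ X.card :=
    mul_le_mul_of_nonneg_right h4 h7
  linarith

/-- the event -/
def EvD2 (θ : Par2) (N i l : ℕ) (X : Finset (List Bool)) (a : Fin N → Bool) : Prop :=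
  ∃ c ≤ θ.p'.eval (2 * i + 1 + l), EvX2 D B θ N i l c X a

/-- the size of the parameters -/
noncomputable def TP2 (θ : Par2) : Polynomial ℕ :=
  (θ.L + 2 * θ.p' + θ.M.p.comp θ.L).comp (2 * Polynomial.X + 1) + Polynomial.X + 20

theorem TP2_ge (θ : Par2) {n m : ℕ} (h : m ≤ 2 * n + 1) :
    θ.L.eval m + 2 * θ.p'.eval m + θ.M.p.eval (θ.L.eval m) + n + 20 ≤ (TP2 θ).eval n := by
  have h1 : (TP2 θ).eval n = (θ.L.eval (2 * n + 1) + 2 * θ.p'.eval (2 * n + 1) +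
      θ.M.p.eval (θ.L.eval (2 * n + 1))) + n + 20 := by
    simp [TP2, Polynomial.eval_comp]
  rw [h1]
  have h2 := eval_mono θ.L h
  have h3 := eval_mono θ.p' h
  have h4 := eval_mono θ.M.p h2
  omega

/-- the number of free variables -/
def rT (t : ℕ) : ℕ := 16 * (32 * t ^ 4 + 1) ^ 2

theorem rT_le {t : ℕ} (ht : 20 ≤ t) : 4 * t * (rT t + 1) ≤ 2 ^ (10 * t) := by
  have h1 : t ≤ 2 ^ t := Nat.lt_two_pow_self.le
  have h2 : 32 * t ^ 4 + 1 ≤ 33 * t ^ 4 := by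
    have : 1 ≤ t ^ 4 := Nat.one_le_pow _ _ (by omega)
    omega
  have h3 : rT t ≤ 16 * (33 * t ^ 4) ^ 2 := Nat.mul_le_mul le_rfl (Nat.pow_le_pow_left h2 2)
  have h4 : 16 * (33 * t ^ 4) ^ 2 + 1 ≤ 2 ^ 15 * t ^ 8 := by
    have h5 : 1 ≤ t ^ 8 := Nat.one_le_pow _ _ (by omega)
    have h6 : 16 * (33 * t ^ 4) ^ 2 = 17424 * t ^ 8 := by ring
    rw [h6]
    norm_num
    omega
  have h7 : t ^ 9 ≤ 2 ^ (9 * t) := by
    calc t ^ 9 ≤ (2 ^ t) ^ 9 := Nat.pow_le_pow_left h1 9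
      _ = 2 ^ (9 * t) := by rw [← pow_mul]; congr 1; ring
  calc 4 * t * (rT t + 1) ≤ 4 * t * (2 ^ 15 * t ^ 8) := Nat.mul_le_mul le_rfl (by omega)
    _ = 2 ^ 17 * t ^ 9 := by ring
    _ ≤ 2 ^ t * 2 ^ (9 * t) :=
        Nat.mul_le_mul (Nat.pow_le_pow_right (by norm_num) (by omega)) h7
    _ = 2 ^ (10 * t) := by rw [← pow_add]; congr 1; ring

theorem term_two2 {t k p : ℕ} {n : ℕ} (ht : p + n ≤ t) (ht1 : 20 ≤ t) :
    (2 : ℝ) ^ p * (((4 * t : ℕ) : ℝ) * (((rT t : ℕ) : ℝ) + 1) *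
      (1 - (1 / (24 * (t : ℝ))) ^ k) ^ ((24 * t) ^ k * (11 * t))) ≤ (1 / 2) ^ n := by
  have htR : (1 : ℝ) ≤ (t : ℝ) := by exact_mod_cast (by omega : 1 ≤ t)
  set q : ℝ := 1 / (24 * t) with hq
  have hq0 : 0 < q := by positivity
  have hq1 : q ≤ 1 := by
    rw [hq, div_le_one (by positivity)]
    linarith
  have hqk0 : 0 < q ^ k := by positivity
  have hqk1 : q ^ k ≤ 1 := pow_le_one₀ hq0.le hq1
  have h1 : (1 - q ^ k) ^ ((24 * t) ^ k * (11 * t)) ≤ (1 / 2) ^ (11 * t) := by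
    have h2 : (1 - q ^ k) ≤ Real.exp (-(q ^ k)) := by
      have := Real.add_one_le_exp (-(q ^ k))
      linarith
    have h3 : (1 - q ^ k) ^ ((24 * t) ^ k * (11 * t)) ≤
        Real.exp (-(q ^ k)) ^ ((24 * t) ^ k * (11 * t)) :=
      pow_le_pow_left₀ (by linarith) h2 _
    refine h3.trans ?_
    rw [← Real.exp_nat_mul]
    have h4 : (((24 * t) ^ k * (11 * t) : ℕ) : ℝ) * -(q ^ k) = -((11 * t : ℕ) : ℝ) := by
      have h5 : ((24 * t : ℕ) : ℝ) ^ k * q ^ k = 1 := by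
        rw [← mul_pow, hq]
        push_cast
        rw [mul_one_div_cancel (by positivity), one_pow]
      push_cast at h5 ⊢
      calc ((24 * (t:ℝ)) ^ k * (11 * t)) * -(q ^ k) = -(((24 * (t:ℝ)) ^ k * q ^ k) * (11 * t)) := by
            ring
        _ = -(11 * (t : ℝ)) := by rw [h5]; ring
    rw [h4, Real.exp_neg, one_div, inv_pow]
    apply inv_anti₀ (by positivity)
    rw [← Real.exp_one_pow]
    apply pow_le_pow_left₀ (by norm_num)
    have := Real.add_one_le_exp (1 : ℝ)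
    linarith
  have h2 : ((4 * t : ℕ) : ℝ) * (((rT t : ℕ) : ℝ) + 1) ≤ 2 ^ (10 * t) := by
    exact_mod_cast rT_le ht1
  have h3 : (0 : ℝ) ≤ (1 - q ^ k) ^ ((24 * t) ^ k * (11 * t)) := pow_nonneg (by linarith) _
  calc (2 : ℝ) ^ p * (((4 * t : ℕ) : ℝ) * (((rT t : ℕ) : ℝ) + 1) *
      (1 - q ^ k) ^ ((24 * t) ^ k * (11 * t))) ≤ 2 ^ p * (2 ^ (10 * t) * (1 / 2) ^ (11 * t)) := by
        apply mul_le_mul_of_nonneg_left _ (by positivity)
        exact mul_le_mul h2 h1 h3 (by positivity)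
    _ = 2 ^ p * (1 / 2) ^ t := by
        congr 1
        have : (1 / 2 : ℝ) ^ (11 * t) = (1 / 2) ^ (10 * t) * (1 / 2) ^ t := by
          rw [← pow_add]; congr 1; ring
        rw [this, ← mul_assoc, ← mul_pow]
        norm_num
    _ ≤ 2 ^ p * (1 / 2) ^ (p + n) := by
        apply mul_le_mul_of_nonneg_left _ (by positivity)
        exact pow_le_pow_of_le_one (by norm_num) (by norm_num) ht
    _ = (1 / 2) ^ n := by
        rw [pow_add, ← mul_assoc, ← mul_pow]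
        norm_num

open Classical in
theorem evD2_bound (θ : Par2) {N i l n t : ℕ} (X : Finset (List Bool))
    (hX : ∀ x ∈ X, x.length = i) (hn : 2 * i + 1 + l ≤ 2 * n + 1) (ht : t = (TP2 θ).eval n)
    (hXt : X.card = 4 * t)
    (hs : ∀ x ∈ X, (rT t + 1) * ((24 * t) ^ θ.k * (11 * t)) ≤ (blkD D N x l).card) :
    Ex unif (fun a : Fin N → Bool => if EvD2 D B θ N i l X a then (1 : ℝ) else 0) ≤
      (θ.k + 2) * (1 / 2) ^ n := by
  have hT := TP2_ge θ hn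
  rw [← ht] at hT
  set m := 2 * i + 1 + l with hm
  have ht20 : 20 ≤ t := by omega
  have ht1 : 1 ≤ t := by omega
  have hMP : θ.M.p.eval (θ.L.eval m) ≤ t := by omega
  have hc : ∀ c ∈ Finset.range (θ.p'.eval m + 1), Ex unif (fun a : Fin N → Bool =>
      if EvX2 D B θ N i l c X a then (1 : ℝ) else 0) ≤
      θ.k * 2 ^ (θ.L.eval m + 2) * (1 / 2) ^ (t + 1) +
      ((4 * t : ℕ) : ℝ) * (((rT t : ℕ) : ℝ) + 1) *
      (1 - (1 / (24 * (t : ℝ))) ^ θ.k) ^ ((24 * t) ^ θ.k * (11 * t)) +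
      2 ^ θ.p'.eval m * (1 / 2) ^ t := by
    intro c hc
    rw [Finset.mem_range, Nat.lt_succ_iff] at hc
    have hlen := M4.len_le θ hc
    have h1 := evX2_bound D B θ (N := N) (i := i) (l := l) (c := c) (t := t) (r := rT t)
      (s := (24 * t) ^ θ.k * (11 * t)) X hX hc ht1 hMP (by
        rw [hXt]
        unfold rT
        apply Nat.mul_le_mul le_rfl
        apply Nat.pow_le_pow_left
        apply Nat.add_le_add_right
        have h2 : θ.rr (2 * i + 1 + l) c + 3 ≤ t := by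
          rw [← hm]
          omega
        calc 2 * (4 * t) ^ 2 * (θ.rr (2 * i + 1 + l) c + 3) * t ≤ 2 * (4 * t) ^ 2 * t * t :=
              Nat.mul_le_mul (Nat.mul_le_mul le_rfl h2) le_rfl
          _ = 32 * t ^ 4 := by ring)
      (Nat.mul_pos (Nat.pow_pos (by omega)) (by omega)) hs
    refine h1.trans ?_
    rw [hXt]
    have h2 : (2 : ℝ) ^ c * (3 / 4) ^ (4 * t) ≤ 2 ^ θ.p'.eval m * (1 / 2) ^ t := by
      apply mul_le_mul (pow_le_pow_right₀ (by norm_num) hc) _ (by positivity) (by positivity)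
      rw [pow_mul]
      exact pow_le_pow_left₀ (by positivity) (by norm_num) _
    have h3 : ((4 * t : ℕ) : ℝ) * (((rT t : ℕ) + 1 : ℝ) *
      (1 - (1 / (24 * (t : ℝ))) ^ θ.k) ^ ((24 * t) ^ θ.k * (11 * t))) =
      ((4 * t : ℕ) : ℝ) * (((rT t : ℕ) : ℝ) + 1) *
      (1 - (1 / (24 * (t : ℝ))) ^ θ.k) ^ ((24 * t) ^ θ.k * (11 * t)) := by ring
    rw [h3]
    linarith
  have hU : Ex unif (fun a : Fin N → Bool => if EvD2 D B θ N i l X a then (1 : ℝ) else 0) ≤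
      ∑ c ∈ Finset.range (θ.p'.eval m + 1), Ex unif (fun a : Fin N → Bool =>
      if EvX2 D B θ N i l c X a then (1 : ℝ) else 0) := by
    rw [← Ex_sum]
    apply Ex_mono unif_nonneg
    intro a
    by_cases hE : EvD2 D B θ N i l X a
    · rw [if_pos hE]
      obtain ⟨c, hc, h⟩ := hE
      refine le_trans ?_ (Finset.single_le_sum (f := fun c =>
        if EvX2 D B θ N i l c X a then (1 : ℝ) else 0) (fun c _ => by positivity)
        (Finset.mem_range.2 (Nat.lt_succ_of_le hc)))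
      show 1 ≤ (if EvX2 D B θ N i l c X a then (1:ℝ) else 0)
      rw [if_pos h]
    · rw [if_neg hE]
      exact Finset.sum_nonneg fun c _ => by positivity
  refine hU.trans ((Finset.sum_le_sum hc).trans ?_)
  rw [Finset.sum_const, Finset.card_range, nsmul_eq_mul]
  have hp1 : ((θ.p'.eval m + 1 : ℕ) : ℝ) ≤ 2 ^ θ.p'.eval m := by
    have : θ.p'.eval m + 1 ≤ 2 ^ θ.p'.eval m := Nat.lt_two_pow_self
    exact_mod_cast this
  have T2 := term_two2 (t := t) (k := θ.k) (p := θ.p'.eval m) (n := n) (by omega) ht20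
  have T1 : (2 : ℝ) ^ θ.p'.eval m * (θ.k * 2 ^ (θ.L.eval m + 2) * (1 / 2) ^ (t + 1)) ≤
      θ.k * (1 / 2) ^ n := by
    have h1 : (1 / 2 : ℝ) ^ (t + 1) ≤ (1 / 2) ^ (θ.p'.eval m + (θ.L.eval m + 2) + n) :=
      pow_le_pow_of_le_one (by norm_num) (by norm_num) (by omega)
    calc (2 : ℝ) ^ θ.p'.eval m * (θ.k * 2 ^ (θ.L.eval m + 2) * (1 / 2) ^ (t + 1))
        ≤ 2 ^ θ.p'.eval m * (θ.k * 2 ^ (θ.L.eval m + 2) *
          (1 / 2) ^ (θ.p'.eval m + (θ.L.eval m + 2) + n)) := by gcongr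
      _ = θ.k * (1 / 2) ^ n := pow_cancel _ _ _ _
  have T3 : (2 : ℝ) ^ θ.p'.eval m * (2 ^ θ.p'.eval m * (1 / 2) ^ t) ≤ (1 / 2) ^ n := by
    have h1 : (1 / 2 : ℝ) ^ t ≤ (1 / 2) ^ (θ.p'.eval m + θ.p'.eval m + n) :=
      pow_le_pow_of_le_one (by norm_num) (by norm_num) (by omega)
    calc (2 : ℝ) ^ θ.p'.eval m * (2 ^ θ.p'.eval m * (1 / 2) ^ t)
        ≤ 2 ^ θ.p'.eval m * (2 ^ θ.p'.eval m * (1 / 2) ^ (θ.p'.eval m + θ.p'.eval m + n)) := by
          gcongr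
      _ = (1 / 2) ^ n := by
          have := pow_cancel (θ.p'.eval m) (θ.p'.eval m) n 1
          rw [one_mul, one_mul] at this
          exact this
  have hnn : (0 : ℝ) ≤ θ.k * 2 ^ (θ.L.eval m + 2) * (1 / 2) ^ (t + 1) +
      ((4 * t : ℕ) : ℝ) * (((rT t : ℕ) : ℝ) + 1) *
      (1 - (1 / (24 * (t : ℝ))) ^ θ.k) ^ ((24 * t) ^ θ.k * (11 * t)) +
      2 ^ θ.p'.eval m * (1 / 2) ^ t := by
    have htR : (1 : ℝ) ≤ (t : ℝ) := by exact_mod_cast ht1
    have hq1 : (1 / (24 * (t : ℝ))) ≤ 1 := by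
      rw [div_le_one (by positivity)]
      linarith
    have hqk1 : (1 / (24 * (t : ℝ))) ^ θ.k ≤ 1 := pow_le_one₀ (by positivity) hq1
    have : (0 : ℝ) ≤ (1 - (1 / (24 * (t : ℝ))) ^ θ.k) ^ ((24 * t) ^ θ.k * (11 * t)) :=
      pow_nonneg (by linarith) _
    positivity
  calc ((θ.p'.eval m + 1 : ℕ) : ℝ) * (θ.k * 2 ^ (θ.L.eval m + 2) * (1 / 2) ^ (t + 1) +
      ((4 * t : ℕ) : ℝ) * (((rT t : ℕ) : ℝ) + 1) *
      (1 - (1 / (24 * (t : ℝ))) ^ θ.k) ^ ((24 * t) ^ θ.k * (11 * t)) +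
      2 ^ θ.p'.eval m * (1 / 2) ^ t) ≤ 2 ^ θ.p'.eval m * (θ.k * 2 ^ (θ.L.eval m + 2) *
      (1 / 2) ^ (t + 1) + ((4 * t : ℕ) : ℝ) * (((rT t : ℕ) : ℝ) + 1) *
      (1 - (1 / (24 * (t : ℝ))) ^ θ.k) ^ ((24 * t) ^ θ.k * (11 * t)) +
      2 ^ θ.p'.eval m * (1 / 2) ^ t) := mul_le_mul_of_nonneg_right hp1 hnn
    _ ≤ (θ.k + 2) * (1 / 2) ^ n := by
        rw [mul_add, mul_add]
        linarith

end Pool.Agent.H440P
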