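import Pool.Agent.H440P.N4c
import Pool.Agent.H943R3.PP.N3
import Pool.Agent.H529R3.Lev.Precomp
import Pool.Agent.H249R3.Sub.Main

/-!
# `PP` and the polynomial hierarchy relative to modifications on a set which is not sparse
-/

set_option autoImplicit false

namespace Pool.Agent.H440P

open Pool.Agent.NPC Pool.Agent.H620R2.Gauge Finset H568R2 Pool.Agent.H676 Polynomial
open Pool.Agent.H943R3.PP Pool.Agent.H622R2
open Pool.Agent.H943R3.PP.N4 (poly_take length_unpair valB_bitsOf)
open Pool.Agent.H249R3.Sub

/-- the string with zeros appended or the end cut off, such that it has length `n` -/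
def resize (w : List Bool) (n : ℕ) : List Bool := (w ++ List.replicate n false).take n

theorem length_resize (w : List Bool) (n : ℕ) : (resize w n).length = n := by
  unfold resize
  rw [List.length_take, List.length_append, List.length_replicate]
  omega

theorem resize_self (w : List Bool) : resize w w.length = w := by
  unfold resize
  rw [List.take_append_of_le_length le_rfl, List.take_length]

/-- the change of the pairs -/
def ff (v : List Bool) : List Bool :=
  pairBits (pairBits (resize (unpair v).1 ((unpair (unpair v).2).1.length + 1))
    (unpair (unpair v).2).1) (unpair (unpair v).2).2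

theorem poly_ff : Poly ff := by
  have h1 : Poly (fun v : List Bool => (unpair v).1) := Poly.fst poly_unpair
  have h2 : Poly (fun v : List Bool => unpair (unpair v).2) :=
    poly_unpair.comp (Poly.snd poly_unpair)
  have h3 : UPoly (fun v : List Bool => (unpair (unpair v).2).1.length + 1) :=
    UPoly.add (UPoly.length (Poly.fst h2)) (UPoly.const 1)
  have h4 : Poly (fun v : List Bool =>
      List.replicate ((unpair (unpair v).2).1.length + 1) false) := by
    refine (NPC.Poly.map (F := fun _ (_ : Unit) => false) h3 (NPC.Poly.const false)).congr
      fun a => ?_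
    rw [List.map_replicate]
  unfold ff resize
  exact poly_pairBits (poly_pairBits (poly_take (Poly.append h1 h4) h3) (Poly.fst h2)) (Poly.snd h2)

theorem cntC_lt (A : Oracle) (z : List Bool) : cntC A z < 2 ^ (z.length + 1) := by
  have h1 : cntC A z ≤ 2 ^ (unpair z).2.length := by
    unfold cntC
    refine (Finset.card_filter_le _ _).trans ?_
    rw [Finset.card_range]
  exact lt_of_le_of_lt h1 (Nat.pow_lt_pow_right (by norm_num)
    (Nat.lt_succ_of_le (length_unpair z)))

theorem isPHpoly_cyl {A : Oracle} (h0 : IsPHpoly A (exCyl A)) : IsPHpoly A (cylLang A) := by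
  obtain ⟨L', h, p, hL', hh, hL⟩ := h0
  refine ⟨{y | ∃ w : List Bool, w.length ≤ (Polynomial.X + 1 : Polynomial ℕ).eval y.length ∧
      pairBits w y ∈ {v | ff v ∈ L'}}, fun n => h (2 * (n + 1) + 1 + n),
    p.comp (2 * (Polynomial.X + 1) + 1 + Polynomial.X),
    isPH_ex (H529R3.Lev.IsPH.precomp hL' poly_ff) _, fun n => ?_, fun z => ?_⟩
  · refine (hh _).trans (le_of_eq ?_)
    simp [Polynomial.eval_comp]
  · have key : ∀ w : List Bool, ff (pairBits w (pairBits z (h (2 * (z.length + 1) + 1 + z.length)))) =
        pairBits (pairBits (resize w (z.length + 1)) z)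
          (h (pairBits (resize w (z.length + 1)) z).length) := by
      intro w
      unfold ff
      rw [unpair_pairBits]
      simp only [unpair_pairBits]
      congr 2
      rw [length_pairBits, length_resize]
    have hz : z ∈ cylLang A ↔ Odd (cntC A z) := Iff.rfl
    rw [hz]
    constructor
    · intro ho
      refine ⟨bitsOf (z.length + 1) (cntC A z), ?_, ?_⟩
      · rw [length_bitsOf]
        simp only [Polynomial.eval_add, Polynomial.eval_X, Polynomial.eval_one, length_pairBits]
        omega
      · show ff _ ∈ L'
        rw [key]
        have e1 : resize (bitsOf (z.length + 1) (cntC A z)) (z.length + 1) =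
            bitsOf (z.length + 1) (cntC A z) := by
          have := resize_self (bitsOf (z.length + 1) (cntC A z))
          rwa [length_bitsOf] at this
        rw [e1]
        refine (hL _).1 ?_
        show Odd (valB (unpair (pairBits _ z)).1) ∧ valB (unpair (pairBits _ z)).1 =
          cntC A (unpair (pairBits _ z)).2
        rw [unpair_pairBits]
        simp only
        rw [valB_bitsOf _ _ (cntC_lt A z)]
        exact ⟨ho, rfl⟩
    · rintro ⟨w, _, hw⟩
      have hw' : ff (pairBits w (pairBits z (h (2 * (z.length + 1) + 1 + z.length)))) ∈ L' := hw
      rw [key] at hw'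
      have h2 := (hL _).2 hw'
      have h3 : Odd (valB (unpair (pairBits (resize w (z.length + 1)) z)).1) ∧
          valB (unpair (pairBits (resize w (z.length + 1)) z)).1 =
          cntC A (unpair (pairBits (resize w (z.length + 1)) z)).2 := h2
      rw [unpair_pairBits] at h3
      obtain ⟨h4, h5⟩ := h3
      simp only at h4 h5
      rw [← h5]
      exact h4

end Pool.Agent.H440P
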