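import Pool.Agent.H440P.Ev2
import Pool.Agent.H943R3.PP.Adv

/-!
# Random modifications on a set which is not sparse: `PSPACE` is not in `PP^PH` with advice
-/

set_option autoImplicit false

namespace Pool.Agent.H440P

open Pool.Agent.NPC hiding inp
open Finset H568R2 Pool.Agent.H676 Pool.Agent.H620R2.Gauge
  Pool.Agent.H622R2 Pool.Agent.H943R3.PP Pool.Agent.H249R3.Sub MeasureTheory
open Pool.Agent.H628R3.RO (randomOracle)

variable (D : Set (List Bool)) (B : Oracle)

/-- the oracles for which the parameters are good -/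
def EasyD2 (θ : Par2) : Set Oracle :=
  {R | ∃ (V : List Bool → List Bool) (h : ℕ → List Bool),
    (∀ x, θ.M.out (patch D R B) x = some (V x)) ∧ (∀ n, (h n).length ≤ θ.p'.eval n) ∧
    ∀ x, x ∈ cylLang (patch D R B) ↔
      1 / 2 < accPrQ V (θ.p.eval (pairBits x (h x.length)).length) θ.k
        (θ.r.eval (pairBits x (h x.length)).length) (pairBits x (h x.length))}

theorem mem_easyD2 {R : Oracle}
    (h : WithAdvice (IsPPPH (patch D R B)) (cylLang (patch D R B))) : ∃ θ, R ∈ EasyD2 D B θ := by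
  obtain ⟨L', h, p', ⟨V, p, r, k, ⟨M, hM⟩, hL'⟩, hh, hx⟩ := h
  refine ⟨⟨M, p, r, k, p'⟩, V, h, hM, hh, fun x => (hx x).trans ?_⟩
  constructor
  · intro h1
    exact (hL' _).1 h1
  · intro h1
    by_contra h2
    have h3 := (hL' _).2 h2
    exact absurd h1 (not_lt.2 h3.le)

theorem maj_iff2 {I : Type} {F : List Bool → (I → Bool) → Bool} {a : I → Bool}
    (V : List Bool → List Bool) (m k r ℓ : ℕ)
    (hV : ∀ y : List Bool, y.length ≤ ℓ → (V y = [true] ↔ F y a = true))
    (y : List Bool) (hy : y.length + (2 * r + 1) + k * (2 * m + 1) ≤ ℓ) :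
    0 < maj m F k r y a ↔ 1 / 2 < accPrQ V m k r y := by
  classical
  have h1 : ∑ w : Fin r → Bool,
      (if QF m F k true (pairBits (List.ofFn w) y) a = true then (1 : ℝ) else 0) =
      (Nat.card {w : Fin r → Bool // Quant m V k true (pairBits (List.ofFn w) y)} : ℝ) := by
    rw [Finset.sum_boole, Nat.card_eq_fintype_card, Fintype.card_subtype]
    congr 2
    ext w
    simp only [Finset.mem_filter, Finset.mem_univ, true_and]
    rw [quant_iff' (m := m) ℓ hV k true (pairBits (List.ofFn w) y) (by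
      rw [length_pairBits, List.length_ofFn]
      omega)]
  unfold maj accPrQ
  rw [h1]
  generalize Nat.card {w : Fin r → Bool // Quant m V k true (pairBits (List.ofFn w) y)} = s
  rw [lt_div_iff₀ (by positivity)]
  constructor
  · intro h
    linarith
  · intro h
    have h2 : (2 : ℝ) ^ r < 2 * s := by linarith
    have h3 : 2 ^ r < 2 * s := by exact_mod_cast h2
    have h4 : ((2 ^ r + 1 : ℕ) : ℝ) ≤ ((2 * s : ℕ) : ℝ) := by exact_mod_cast h3
    push_cast at h4
    linarith

theorem evD2_of_easy (θ : Par2) (i l : ℕ) : ∃ N0 : ℕ, ∀ N, N0 ≤ N →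
    2 ^ (i + l + 1) ≤ N + 1 ∧ ∀ R ∈ EasyD2 D B θ, ∀ X : Finset (List Bool),
      (∀ x ∈ X, x.length = i) → EvD2 D B θ N i l X (pre N R) := by
  obtain ⟨qb, hqb⟩ := Alg.out_local θ.M
  set n := 2 * i + 1 + l with hn
  refine ⟨2 ^ (qb.eval (θ.L.eval n) + i + l + 1), fun N hN => ⟨?_, ?_⟩⟩
  · have h4 : 2 ^ (i + l + 1) ≤ 2 ^ (qb.eval (θ.L.eval n) + i + l + 1) :=
      Nat.pow_le_pow_right (by norm_num) (by omega)
    omega
  rintro R ⟨V, h, hM, hh, hx⟩ X hX
  have hV : ∀ y : List Bool, y.length ≤ θ.L.eval n →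
      (V y = [true] ↔ leafP D B θ.M N y (pre N R) = true) := by
    intro y hy
    obtain ⟨Q, _, hQl, hQA⟩ := hqb (patch D R B) y
    have h1 : θ.M.out (patch D (orc N (pre N R)) B) y = θ.M.out (patch D R B) y := by
      apply hQA
      intro q hq
      unfold patch
      split_ifs with hD
      · apply orc_pre
        have h2 := idx_lt q
        have h3 : q.length ≤ qb.eval (θ.L.eval n) := (hQl q hq).trans (eval_mono _ hy)
        have h4 : 2 ^ (q.length + 1) ≤ 2 ^ (qb.eval (θ.L.eval n) + i + l + 1) :=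
          Nat.pow_le_pow_right (by norm_num) (by omega)
        omega
      · rfl
    unfold leafP
    rw [h1, hM y, decide_eq_true_eq, Option.some.injEq]
  refine ⟨(h n).length, hh n, h n, mem_strsOf _, ?_⟩
  intro x hxX
  have hlen : (inp x l).length = n := by rw [length_inp, hX x hxX]
  have h1 := hx (inp x l)
  rw [hlen, length_pairBits, hlen, mem_cylLang_inp] at h1
  have h2 := par_blkD D B N x l (by
    rw [hX x hxX]
    have h4 : 2 ^ (i + l + 1) ≤ 2 ^ (qb.eval (θ.L.eval n) + i + l + 1) :=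
      Nat.pow_le_pow_right (by norm_num) (by omega)
    omega) R
  have h3 := maj_iff2 (F := leafP D B θ.M N) (a := pre N R) V (θ.m n (h n).length) θ.k
    (θ.rr n (h n).length) (θ.L.eval n) hV (pairBits (inp x l) (h n)) (by
      rw [length_pairBits, hlen]
      exact M4.len_le θ (hh n))
  rw [h2, h3, decide_eq_true_eq, h1]
  rfl

theorem measure_easyD2 (hD : ¬ Sparse D) (θ : Par2) : randomOracle (EasyD2 D B θ) = 0 := by
  classical
  -- the polynomials
  set MP : Polynomial ℕ := (16 * (32 * TP2 θ ^ 4 + 1) ^ 2 + 1) *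
    ((Polynomial.C 24 * TP2 θ) ^ θ.k * (Polynomial.C 11 * TP2 θ)) with hMP
  have hMPe : ∀ n, MP.eval n = (rT ((TP2 θ).eval n) + 1) *
      ((24 * (TP2 θ).eval n) ^ θ.k * (11 * (TP2 θ).eval n)) := by
    intro n
    simp [hMP, rT]
  have key : ∀ n0 : ℕ, ∃ n, n0 ≤ n ∧ randomOracle (EasyD2 D B θ) ≤
      ENNReal.ofReal ((θ.k + 2) * (1 / 2) ^ n) := by
    intro n0
    obtain ⟨n, hn0, hn⟩ := nonsparse D hD (MP + 2 * MP * Polynomial.X * (4 * TP2 θ)) n0
    set t := (TP2 θ).eval n with ht
    have ht4 : 20 ≤ t := by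
      have := TP2_ge θ (n := n) (m := 0) (by omega)
      omega
    have hM2 : 2 ≤ MP.eval n := by
      rw [hMPe, ← ht]
      have h1 : 1 ≤ (24 * t) ^ θ.k := Nat.one_le_pow _ _ (by omega)
      have h2 : 11 * t ≤ (24 * t) ^ θ.k * (11 * t) := Nat.le_mul_of_pos_left _ h1
      have h3 : (24 * t) ^ θ.k * (11 * t) ≤ (rT t + 1) * ((24 * t) ^ θ.k * (11 * t)) :=
        Nat.le_mul_of_pos_left _ (by omega)
      omega
    obtain ⟨i, hi, X, hXc, hX⟩ := exists_heavy (slice D n) n (MP.eval n) (4 * t)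
      (fun w hw => slice_length D hw) hM2 (by
        have h1 : (MP + 2 * MP * Polynomial.X * (4 * TP2 θ)).eval n =
            MP.eval n + 2 * MP.eval n * n * (4 * t) := by simp [ht]
        rw [← h1]
        exact hn)
    set l := n - i with hl
    obtain ⟨N0, hN0⟩ := evD2_of_easy D B θ i l
    obtain ⟨hN1, hN2⟩ := hN0 N0 le_rfl
    refine ⟨n, hn0, ?_⟩
    have hcard : ∀ x ∈ X, (rT t + 1) * ((24 * t) ^ θ.k * (11 * t)) ≤ (blkD D N0 x l).card := by
      intro x hx
      obtain ⟨hxl, hx2⟩ := hX x hx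
      rw [blkD_card D N0 x l (by rw [hxl]; exact hN1)]
      rw [hMPe, ← ht] at hx2
      refine hx2.trans ?_
      -- inject the slice into the block
      refine Finset.card_le_card_of_surjOn (fun j => x ++ bitsOf l j) ?_
      intro w hw
      rw [Finset.mem_coe, Finset.mem_filter] at hw
      obtain ⟨hw1, hw2⟩ := hw
      have hwn := slice_length D hw1
      obtain ⟨j, hj, hjw⟩ := exists_bitsOf (w.drop i)
      have hdl : (w.drop i).length = l := by rw [List.length_drop, hwn]
      rw [hdl] at hj hjw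
      have hw3 : x ++ bitsOf l j = w := by
        rw [hjw, ← hw2, List.take_append_drop]
      refine ⟨j, ?_, hw3⟩
      rw [Finset.mem_coe, Finset.mem_filter, Finset.mem_range]
      refine ⟨hj, ?_⟩
      rw [hw3]
      unfold Pool.Agent.H249R3.Sub.slice at hw1
      exact (Finset.mem_filter.1 hw1).2
    have h1 := evD2_bound D B θ (N := N0) (i := i) (l := l) (n := n) (t := t) X
      (fun x hx => (hX x hx).1) (by omega) ht hXc hcard
    have h2 : EasyD2 D B θ ⊆ {R : Oracle | EvD2 D B θ N0 i l X (pre N0 R)} :=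
      fun R hR => hN2 R hR X (fun x hx => (hX x hx).1)
    refine (measure_mono h2).trans ((meas_le N0 _).trans ?_)
    apply ENNReal.ofReal_le_ofReal
    refine le_trans (le_of_eq ?_) h1
    congr 1
  -- let `n` tend to infinity
  have hlim : Filter.Tendsto (fun n : ℕ => ENNReal.ofReal ((θ.k + 2) * (1 / 2) ^ n))
      Filter.atTop (nhds 0) := by
    rw [← ENNReal.ofReal_zero]
    apply ENNReal.tendsto_ofReal
    have h1 := (tendsto_pow_atTop_nhds_zero_of_lt_one (r := (1 / 2 : ℝ)) (by norm_num)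
      (by norm_num)).const_mul ((θ.k : ℝ) + 2)
    rw [mul_zero] at h1
    exact h1
  have hle : ∀ n0 : ℕ, randomOracle (EasyD2 D B θ) ≤
      ENNReal.ofReal ((θ.k + 2) * (1 / 2) ^ n0) := by
    intro n0
    obtain ⟨n, hn, h⟩ := key n0
    refine h.trans (ENNReal.ofReal_le_ofReal ?_)
    apply mul_le_mul_of_nonneg_left _ (by positivity)
    exact pow_le_pow_of_le_one (by norm_num) (by norm_num) hn
  exact le_antisymm (ge_of_tendsto' hlim hle) zero_le

theorem ae_patch2 (hD : ¬ Sparse D) : ∀ᵐ R ∂randomOracle,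
    ¬ WithAdvice (IsPPPH (patch D R B)) (cylLang (patch D R B)) := by
  have h1 : ∀ᵐ R ∂randomOracle, ∀ θ : Par2, R ∉ EasyD2 D B θ := by
    rw [ae_all_iff]
    intro θ
    rw [ae_iff]
    have : {R : Oracle | ¬ R ∉ EasyD2 D B θ} = EasyD2 D B θ := by
      ext R; simp
    rw [this]
    exact measure_easyD2 D B hD θ
  filter_upwards [h1] with R hR
  intro h
  obtain ⟨θ, hθ⟩ := mem_easyD2 D B h
  exact hR θ hθ

end Pool.Agent.H440P
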