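import Pool.Agent.H943R3.PP.N4
import Pool.Agent.H943R3.PP.N5
import Pool.Agent.H249R3.Sub.Pspace

/-!
# The exact number of the elements of the oracle in a cylinder is decided in `PP`

(The proof is the one of `Pool.Agent.H943R3.PP.N4`, for all cylinders.)
-/

set_option autoImplicit false

namespace Pool.Agent.H440P

open Pool.Agent.NPC Pool.Agent.H620R2.Gauge Finset H568R2 Pool.Agent.H676
open Pool.Agent.H943R3.PP
open Pool.Agent.H943R3.PP.N4 (poly_take poly_drop pw pw_eq poly_pw Cd poly_Cd bn length_unpair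
  valB_bitsOf bitsOf_valB exists_ofFn eqv eqv_val card_lt card_split)
open Pool.Agent.H249R3.Sub (cylLang)

/-- the number of the elements of the oracle of length `|x| + |u|` with prefix `x` -/
def cntC (A : Oracle) (z : List Bool) : ℕ :=
  ((Finset.range (2 ^ (unpair z).2.length)).filter
    (fun j => A ((unpair z).1 ++ bitsOf (unpair z).2.length j) = true)).card

/-- The string `⟨w, ⟨x, u⟩⟩` is in this language if the value of `w` is odd and equal to the number
of the elements of the oracle of length `|x| + |u|` with prefix `x`. -/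
def exCyl (A : Oracle) : Set (List Bool) :=
  {y | Odd (valB (unpair y).1) ∧ valB (unpair y).1 = cntC A (unpair y).2}

/-- the prefix -/
def px (z : List Bool) : List Bool := (unpair (unpair (unpair z).2).2).1

/-- the string whose length is the number of the free bits -/
def uu (z : List Bool) : List Bool := (unpair (unpair (unpair z).2).2).2

/-- the first block of the random string -/
def u1 (z : List Bool) : List Bool := (unpair z).1.take (uu z).length

/-- the second block -/
def u2 (z : List Bool) : List Bool :=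
  ((unpair z).1.drop (uu z).length).take (uu z).length

/-- the rest -/
def u3 (z : List Bool) : List Bool :=
  ((unpair z).1.drop (uu z).length).drop (uu z).length

/-- the questions -/
def Q (z : List Bool) : List (List Bool) :=
  [px z ++ u1 z, px z ++ u2 z]

/-- the output -/
def H (p : List Bool × List Bool) : List Bool :=
  if Cd (valB (unpair (unpair p.1).2).1) (pw (uu p.1).length)
    (pw ((u3 p.1).drop 1).length) (valB (u3 p.1)) (valB p.2 % 2) (valB p.2 / 2)
  then [true] else []

/-- the algorithm -/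
def V (A : Oracle) (z : List Bool) : List Bool := H (z, (Q z).map A)

theorem poly_t : Poly (fun z : List Bool => unpair (unpair (unpair z).2).2) :=
  poly_unpair.comp (Poly.snd (poly_unpair.comp (Poly.snd poly_unpair)))

theorem poly_px : Poly px := Poly.fst poly_t

theorem poly_uu : Poly uu := Poly.snd poly_t

theorem poly_w : Poly (fun z : List Bool => (unpair (unpair z).2).1) :=
  Poly.fst (poly_unpair.comp (Poly.snd poly_unpair))

theorem upoly_n : UPoly (fun z : List Bool => (uu z).length) :=
  UPoly.length poly_uu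

theorem poly_u1 : Poly u1 := poly_take (Poly.fst poly_unpair) upoly_n

theorem poly_u2 : Poly u2 := poly_take (poly_drop (Poly.fst poly_unpair) upoly_n) upoly_n

theorem poly_u3 : Poly u3 := poly_drop (poly_drop (Poly.fst poly_unpair) upoly_n) upoly_n

theorem poly_Q : Poly Q :=
  Poly.cons (Poly.append poly_px poly_u1) (Poly.cons (Poly.append poly_px poly_u2)
    (NPC.Poly.const []))

theorem poly_H : Poly H := by
  unfold H
  refine Poly.ite (poly_Cd ?_ ?_ ?_ ?_ ?_ ?_) (NPC.Poly.const _) (NPC.Poly.const _)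
  · exact Poly.valBits (poly_w.comp (Poly.fst Poly.id))
  · exact poly_pw (upoly_n.comp (Poly.fst Poly.id))
  · exact poly_pw (UPoly.length (poly_drop (poly_u3.comp (Poly.fst Poly.id)) (UPoly.const 1)))
  · exact Poly.valBits (poly_u3.comp (Poly.fst Poly.id))
  · exact Poly.mod (Poly.valBits (Poly.snd Poly.id)) (NPC.Poly.const 2)
  · exact Poly.div (Poly.valBits (Poly.snd Poly.id)) (NPC.Poly.const 2)

theorem V_iff (A : Oracle) (ρ y : List Bool) :
    V A (pairBits ρ y) = [true] ↔
      Cd (valB (unpair y).1) (2 ^ (unpair (unpair y).2).2.length)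
        (2 ^ (ρ.length - 2 * (unpair (unpair y).2).2.length - 1))
        (valB (ρ.drop (2 * (unpair (unpair y).2).2.length)))
        (bn (A ((unpair (unpair y).2).1 ++ ρ.take (unpair (unpair y).2).2.length)))
        (bn (A ((unpair (unpair y).2).1 ++
          (ρ.drop (unpair (unpair y).2).2.length).take (unpair (unpair y).2).2.length))) := by
  have eu : uu (pairBits ρ y) = (unpair (unpair y).2).2 := by
    unfold uu
    rw [unpair_pairBits]
  have ep : px (pairBits ρ y) = (unpair (unpair y).2).1 := by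
    unfold px
    rw [unpair_pairBits]
  have e3 : u3 (pairBits ρ y) = ρ.drop (2 * (unpair (unpair y).2).2.length) := by
    unfold u3
    rw [eu, unpair_pairBits]
    simp only
    rw [List.drop_drop, two_mul]
  have eQ : Q (pairBits ρ y) = [(unpair (unpair y).2).1 ++ ρ.take (unpair (unpair y).2).2.length,
      (unpair (unpair y).2).1 ++
        (ρ.drop (unpair (unpair y).2).2.length).take (unpair (unpair y).2).2.length] := by
    unfold Q u1 u2
    rw [eu, ep, unpair_pairBits]
  have hval : ∀ b c : Bool, valB [b, c] % 2 = bn b ∧ valB [b, c] / 2 = bn c := by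
    intro b c
    cases b <;> cases c <;> decide
  have hlen : (((u3 (pairBits ρ y)).drop 1).length) =
      ρ.length - 2 * (unpair (unpair y).2).2.length - 1 := by
    rw [e3, List.length_drop, List.length_drop]
  unfold V H
  simp only [eQ, List.map_cons, List.map_nil, hlen, pw_eq, (hval _ _).1, (hval _ _).2, eu]
  rw [unpair_pairBits]
  simp only
  rw [e3]
  constructor
  · intro h
    by_contra hc
    rw [if_neg hc] at h
    exact absurd h (by simp)
  · intro h
    rw [if_pos h]

theorem sum_bn (A : Oracle) (z : List Bool) :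
    ∑ u : Fin (unpair z).2.length → Bool, bn (A ((unpair z).1 ++ List.ofFn u)) = cntC A z := by
  unfold cntC
  rw [Finset.card_filter]
  rw [← Fin.sum_univ_eq_sum_range (fun j =>
    if A ((unpair z).1 ++ bitsOf (unpair z).2.length j) = true then 1 else 0)]
  rw [← Equiv.sum_comp (eqv (unpair z).2.length)]
  refine Finset.sum_congr rfl fun u _ => ?_
  rw [eqv_val]
  have h : bitsOf (unpair z).2.length (valB (List.ofFn u)) = List.ofFn u := by
    have := bitsOf_valB (List.ofFn u)
    rwa [List.length_ofFn] at this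
  rw [h]
  rfl

theorem exCyl_pp (A : Oracle) : IsPP A (exCyl A) := by
  classical
  refine ⟨V A, Polynomial.C 4 * Polynomial.X + Polynomial.C 8, IsFP.tt poly_Q poly_H, fun y => ?_⟩
  have hM : (Polynomial.C 4 * Polynomial.X + Polynomial.C 8 : Polynomial ℕ).eval y.length =
      4 * y.length + 8 := by
    simp only [Polynomial.eval_add, Polynomial.eval_mul, Polynomial.eval_X, Polynomial.eval_C]
  rw [hM]
  set x := (unpair (unpair y).2).1 with hx
  set t := valB (unpair y).1 with ht
  set n := (unpair (unpair y).2).2.length with hn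
  have hny : n ≤ y.length := (length_unpair _).trans (length_unpair y)
  obtain ⟨s, hs, hs8⟩ : ∃ s, 4 * y.length + 8 = n + (n + s) ∧ 2 * n + 8 ≤ s :=
    ⟨4 * y.length + 8 - 2 * n, by omega, by omega⟩
  have hcount : Nat.card {w : Fin (4 * y.length + 8) → Bool //
      V A (pairBits (List.ofFn w) y) = [true]} =
      ∑ a : Fin n → Bool, ∑ b : Fin n → Bool,
        Nat.card {v : Fin s → Bool // Cd t (2 ^ n) (2 ^ (s - 1)) (valB (List.ofFn v))
          (bn (A (x ++ List.ofFn a))) (bn (A (x ++ List.ofFn b)))} := by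
    rw [hs]
    have e1 : Nat.card {w : Fin (n + (n + s)) → Bool //
        V A (pairBits (List.ofFn w) y) = [true]} =
        Nat.card {w : Fin (n + (n + s)) → Bool // (fun l l' : List Bool =>
          Cd t (2 ^ n) (2 ^ (s - 1)) (valB (l'.drop n)) (bn (A (x ++ l)))
            (bn (A (x ++ l'.take n)))) ((List.ofFn w).take n) ((List.ofFn w).drop n)} := by
      apply Nat.card_congr
      refine Equiv.subtypeEquivRight fun w => ?_
      rw [V_iff, ← hx, ← ht, ← hn, List.length_ofFn]
      have e2 : n + (n + s) - 2 * n - 1 = s - 1 := by omega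
      rw [e2, two_mul, ← List.drop_drop]
    have e3 := card_split n (n + s) (fun l l' : List Bool =>
          Cd t (2 ^ n) (2 ^ (s - 1)) (valB (l'.drop n)) (bn (A (x ++ l)))
            (bn (A (x ++ l'.take n))))
    refine (e1.trans e3).trans ?_
    refine Finset.sum_congr rfl fun a _ => ?_
    have := card_split n s (fun l l' : List Bool =>
      Cd t (2 ^ n) (2 ^ (s - 1)) (valB l') (bn (A (x ++ List.ofFn a))) (bn (A (x ++ l))))
    exact this
  unfold accPr
  rw [hcount]
  have hpow : (2 : ℕ) ^ s = 2 * 2 ^ (s - 1) := by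
    rw [← pow_succ']
    congr 1
    omega
  have hbig : 4 * (2 ^ n * 2 ^ n) * 2 ≤ 2 ^ (s - 1) := by
    have e1 : 4 * (2 ^ n * 2 ^ n) * 2 = 2 ^ (n + n + 3) := by ring
    rw [e1]
    exact Nat.pow_le_pow_right (by norm_num) (by omega)
  have hpos : 1 ≤ 2 ^ n * 2 ^ n := Nat.one_le_iff_ne_zero.2 (by positivity)
  by_cases hgood : t % 2 = 1 ∧ t ≤ 2 ^ n
  · -- the main case
    have htt : t * t ≤ 2 ^ n * 2 ^ n := Nat.mul_le_mul hgood.2 hgood.2
    have hcard : ∀ b1 b2 : Bool, (Nat.card {v : Fin s → Bool // Cd t (2 ^ n) (2 ^ (s - 1))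
        (valB (List.ofFn v)) (bn b1) (bn b2)} : ℝ) =
        2 ^ (s - 1) + 1 - 2 * (t : ℝ) ^ 2 + 4 * (2 ^ n * t) * (bn b1 : ℝ) -
          2 * (2 ^ n * 2 ^ n) * ((bn b1 : ℝ) * (bn b2 : ℝ)) := by
      intro b1 b2
      have hb1 : bn b1 ≤ 1 := by cases b1 <;> simp [bn]
      have hb2 : bn b2 ≤ 1 := by cases b2 <;> simp [bn]
      have hbb : bn b1 * bn b2 ≤ 1 := Nat.mul_le_mul hb1 hb2
      have hc : 2 * (t * t) + 2 * (2 ^ n * 2 ^ n * (bn b1 * bn b2)) ≤ 2 ^ (s - 1) := by
        have : 2 ^ n * 2 ^ n * (bn b1 * bn b2) ≤ 2 ^ n * 2 ^ n * 1 := Nat.mul_le_mul_left _ hbb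
        omega
      have hD : 4 * (2 ^ n * (t * bn b1)) ≤ 4 * (2 ^ n * 2 ^ n) := by
        have h1 : t * bn b1 ≤ 2 ^ n * 1 := Nat.mul_le_mul hgood.2 hb1
        have h2 : 2 ^ n * (t * bn b1) ≤ 2 ^ n * (2 ^ n * 1) := Nat.mul_le_mul_left _ h1
        rw [mul_one] at h2
        omega
      have h3 : Nat.card {v : Fin s → Bool // Cd t (2 ^ n) (2 ^ (s - 1))
          (valB (List.ofFn v)) (bn b1) (bn b2)} =
          2 ^ (s - 1) + 1 + 4 * (2 ^ n * (t * bn b1)) -
            (2 * (t * t) + 2 * (2 ^ n * 2 ^ n * (bn b1 * bn b2))) := by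
        rw [← card_lt s _ (by omega : 2 ^ (s - 1) + 1 + 4 * (2 ^ n * (t * bn b1)) -
            (2 * (t * t) + 2 * (2 ^ n * 2 ^ n * (bn b1 * bn b2))) ≤ 2 ^ s)]
        apply Nat.card_congr
        refine Equiv.subtypeEquivRight fun v => ?_
        unfold Cd
        constructor
        · rintro ⟨_, h⟩
          omega
        · intro h
          exact ⟨hgood, by omega⟩
      rw [h3, Nat.cast_sub (by omega)]
      push_cast
      ring
    have hsum : ((∑ a : Fin n → Bool, ∑ b : Fin n → Bool,
        Nat.card {v : Fin s → Bool // Cd t (2 ^ n) (2 ^ (s - 1)) (valB (List.ofFn v))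
          (bn (A (x ++ List.ofFn a))) (bn (A (x ++ List.ofFn b)))} : ℕ) : ℝ) =
        2 ^ n * 2 ^ n * (2 ^ (s - 1) + 1 - 2 * ((cntC A (unpair y).2 : ℝ) - t) ^ 2) := by
      have hS : ∑ u : Fin n → Bool, (bn (A (x ++ List.ofFn u)) : ℝ) = cntC A (unpair y).2 := by
        have := sum_bn A (unpair y).2
        rw [← this]
        push_cast
        rfl
      push_cast
      simp only [hcard]
      have hcardu : (Finset.univ : Finset (Fin n → Bool)).card = 2 ^ n := by
        rw [Finset.card_univ, Fintype.card_fun, Fintype.card_bool, Fintype.card_fin]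
      have e1 : ∀ a : Fin n → Bool, ∑ b : Fin n → Bool,
          ((2 : ℝ) ^ (s - 1) + 1 - 2 * (t : ℝ) ^ 2 + 4 * (2 ^ n * t) *
            (bn (A (x ++ List.ofFn a)) : ℝ) - 2 * (2 ^ n * 2 ^ n) *
            ((bn (A (x ++ List.ofFn a)) : ℝ) * (bn (A (x ++ List.ofFn b)) : ℝ))) =
          2 ^ n * (2 ^ (s - 1) + 1 - 2 * (t : ℝ) ^ 2) +
            (bn (A (x ++ List.ofFn a)) : ℝ) *
              (2 ^ n * (4 * (2 ^ n * t)) - 2 * (2 ^ n * 2 ^ n) * cntC A (unpair y).2) := by
        intro a
        rw [Finset.sum_sub_distrib, Finset.sum_const, hcardu, ← Finset.mul_sum, ← Finset.mul_sum,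
          hS, nsmul_eq_mul]
        push_cast
        ring
      rw [Finset.sum_congr rfl fun a _ => e1 a, Finset.sum_add_distrib, Finset.sum_const, hcardu,
        ← Finset.sum_mul, hS, nsmul_eq_mul]
      push_cast
      ring
    rw [hsum, hs]
    have hden : (2 : ℝ) ^ (n + (n + s)) = 2 ^ n * 2 ^ n * (2 * 2 ^ (s - 1)) := by
      have : (2 : ℝ) ^ s = 2 * 2 ^ (s - 1) := by exact_mod_cast hpow
      rw [pow_add, pow_add, this]
      ring
    have hP : (0 : ℝ) < 2 ^ n * 2 ^ n := by positivity
    have hR : (0 : ℝ) < 2 ^ (s - 1) := by positivity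
    rw [hden, mul_div_mul_left _ _ hP.ne']
    constructor
    · rintro ⟨_, h2⟩
      have h3 : (cntC A (unpair y).2 : ℝ) - t = 0 := by
        rw [← h2]
        exact sub_self _
      rw [h3, lt_div_iff₀ (by positivity)]
      linarith
    · intro hy
      have hne : cntC A (unpair y).2 ≠ t := fun h => hy ⟨Nat.odd_iff.2 hgood.1, h.symm⟩
      have h3 : (1 : ℝ) ≤ ((cntC A (unpair y).2 : ℝ) - t) ^ 2 := by
        have h4 : (1 : ℤ) ≤ ((cntC A (unpair y).2 : ℤ) - t) ^ 2 := by
          have h5 : ((cntC A (unpair y).2 : ℤ) - t) ≠ 0 := by omega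
          have h6 : 0 < ((cntC A (unpair y).2 : ℤ) - t) ^ 2 := by positivity
          omega
        exact_mod_cast h4
      rw [div_lt_iff₀ (by positivity)]
      linarith
  · -- the algorithm rejects
    have hzero : ∀ a b : Fin n → Bool, Nat.card {v : Fin s → Bool // Cd t (2 ^ n) (2 ^ (s - 1))
        (valB (List.ofFn v)) (bn (A (x ++ List.ofFn a))) (bn (A (x ++ List.ofFn b)))} = 0 := by
      intro a b
      have : IsEmpty {v : Fin s → Bool // Cd t (2 ^ n) (2 ^ (s - 1))
          (valB (List.ofFn v)) (bn (A (x ++ List.ofFn a))) (bn (A (x ++ List.ofFn b)))} :=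
        ⟨fun v => hgood v.2.1⟩
      exact Nat.card_of_isEmpty
    simp only [hzero, Finset.sum_const_zero, Nat.cast_zero, zero_div]
    refine ⟨fun hy => ?_, fun _ => by norm_num⟩
    exfalso
    apply hgood
    refine ⟨Nat.odd_iff.1 hy.1, ?_⟩
    have h2 : t = cntC A (unpair y).2 := hy.2
    rw [h2]
    unfold cntC
    refine (Finset.card_filter_le _ _).trans ?_
    rw [Finset.card_range]

end Pool.Agent.H440P
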