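import Pool.Agent.H620R2.Gauge.C
import Pool.Agent.H249R3.Sub.Main
import Pool.Agent.H943R3.PP.Adv
import Pool.Agent.H628R3.RO.K2

/-!
# Sparse sets: an oracle which is robust against all changes on the set
-/

set_option autoImplicit false

namespace Pool.Agent.H440P.Rob

open Pool.Agent.NPC hiding inp
open Pool.Agent.H620R2.Gauge Pool.Agent.H620R2.Gauge.CC Finset Pool.Agent.H249R3.Sub

/-- a list of strings -/
def dec (y : List Bool) : List (List Bool) := (unbits (List (List Bool)) y).getD []

theorem dec_bits (l : List (List Bool)) : dec (bits l) = l := by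
  unfold dec
  rw [unbits_bits]
  rfl

open Classical in
/-- the question: the property of the input relative to the changed oracle -/
noncomputable def VV (D : Set (List Bool)) (P : ℕ → Oracle → List Bool → Prop) (e : ℕ)
    (A : Oracle) (z : List Bool) : Prop :=
  P e (patch D (fun w => decide (w ∈ dec (unpair (unpair z).2).1)) A) (unpair z).1

theorem VV_loc (D : Set (List Bool)) (P : ℕ → Oracle → List Bool → Prop) (b : ℕ → Polynomial ℕ)
    (hP : ∀ e A A' x, (∀ w : List Bool, w.length ≤ (b e).eval x.length → A w = A' w) →
      (P e A x ↔ P e A' x)) (e : ℕ) (A A' : Oracle) (z : List Bool)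
    (h : ∀ w : List Bool, w.length < (code b e z).length → A w = A' w) :
    VV D P e A z ↔ VV D P e A' z := by
  unfold VV
  apply hP
  intro w hw
  unfold patch
  split_ifs with hD
  · rfl
  · apply h
    have h1 := lt_length_code b e z
    have h2 := Pool.Agent.H943R3.PP.Adv.length_unpair1 z
    have h3 := eval_mono (b e) h2
    omega

theorem sz_le (m : ℕ) : ∀ l : List (List Bool), (∀ w ∈ l, w.length ≤ m) →
    sz l ≤ l.length * (4 * m + 2) + 1 := by
  intro l
  induction l with
  | nil => intro _; simp
  | cons a l ih =>
    intro h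
    have h1 := ih fun w hw => h w (List.mem_cons_of_mem _ hw)
    have h2 := sz_listBool_le a
    have h3 := h a List.mem_cons_self
    rw [sz_list_cons, List.length_cons]
    have h4 : (l.length + 1) * (4 * m + 2) = l.length * (4 * m + 2) + (4 * m + 2) := by ring
    omega

theorem length_code' (b : ℕ → Polynomial ℕ) (e : ℕ) (x : List Bool) :
    (code b e x).length = e + 1 + ((b e).eval x.length + 1 + x.length) := by
  unfold code
  simp only [List.length_append, List.length_replicate, List.length_cons]
  omega

/-- Around a suitable oracle `B` changes on a sparse set do no harm. -/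
theorem robust (D : Set (List Bool)) (hD : Sparse D) (P : ℕ → Oracle → List Bool → Prop)
    (b : ℕ → Polynomial ℕ)
    (hP : ∀ e A A' x, (∀ w : List Bool, w.length ≤ (b e).eval x.length → A w = A' w) →
      (P e A x ↔ P e A' x)) :
    ∃ B : Oracle, ∀ (R : Oracle) (e : ℕ),
      WithAdvice (IsP (patch D R B)) {x | P e (patch D R B) x} := by
  classical
  obtain ⟨p, hp⟩ := hD
  set B : Oracle := Phi b (VV D P) (fun _ => false) with hB
  refine ⟨B, fun R e => ?_⟩
  set A : Oracle := patch D R B with hA
  -- the finite parts
  have hfin : ∀ m : ℕ, {w : List Bool | w ∈ D ∧ w.length ≤ m}.Finite := fun m =>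
    (finite_len m).subset fun w hw => hw.2
  have hT : ∀ n : ℕ, ∃ l : List (List Bool), l.length ≤ p.eval ((b e).eval n) ∧
      (∀ w ∈ l, w.length ≤ (b e).eval n) ∧
      ∀ w ∈ D, w.length ≤ (b e).eval n → (w ∈ l ↔ R w = true) := by
    intro n
    refine ⟨((hfin ((b e).eval n)).toFinset.filter (fun w => R w = true)).toList, ?_, ?_, ?_⟩
    · rw [Finset.length_toList]
      refine (Finset.card_filter_le _ _).trans ?_
      rw [← Set.ncard_eq_toFinset_card _ (hfin _)]
      exact hp _
    · intro w hw
      rw [Finset.mem_toList, Finset.mem_filter, Set.Finite.mem_toFinset] at hw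
      exact hw.1.2
    · intro w hw hl
      rw [Finset.mem_toList, Finset.mem_filter, Set.Finite.mem_toFinset]
      exact ⟨fun h => h.2, fun h => ⟨⟨hw, hl⟩, h⟩⟩
  choose T hT1 hT2 hT3 using hT
  -- the length of the description of the finite part
  set τ : Polynomial ℕ := p.comp (b e) * (4 * (b e) + 2) + 1 with hτ
  have hτe : ∀ n, τ.eval n = p.eval ((b e).eval n) * (4 * (b e).eval n + 2) + 1 := by
    intro n
    simp [hτ, Polynomial.eval_comp]
  have hTl : ∀ n, (bits (T n)).length ≤ τ.eval n := by
    intro n
    rw [bits_length, hτe]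
    refine (sz_le _ _ (hT2 n)).trans ?_
    have := Nat.mul_le_mul_right (4 * (b e).eval n + 2) (hT1 n)
    omega
  -- the index
  set W : Polynomial ℕ := 2 * Polynomial.X + 2 * τ + 2 + Polynomial.X with hW
  have hWe : ∀ n, W.eval n = 2 * n + 2 * τ.eval n + 2 + n := by
    intro n
    simp [hW]
  set Q : Polynomial ℕ := p.comp (Polynomial.C e + 2 + (b e).comp W + W) with hQ
  have hQe : ∀ n, Q.eval n = p.eval (e + 2 + (b e).eval (W.eval n) + W.eval n) := by
    intro n
    simp [hQ, Polynomial.eval_comp]
  obtain ⟨K, hK⟩ := Pool.Agent.H628R3.RO.poly_le_two_pow (Q.comp (2 * Polynomial.X) + 1)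
  have hK' : ∀ t ≥ K, Q.eval (2 * t) < 2 ^ t := by
    intro t ht
    have := hK t ht
    simp only [Polynomial.eval_add, Polynomial.eval_comp, Polynomial.eval_mul,
      Polynomial.eval_X, Polynomial.eval_one] at this
    have h2 : Polynomial.eval t (2 : Polynomial ℕ) = 2 := by simp
    rw [h2] at this
    omega
  have hidx : ∀ n : ℕ, ∃ j : List Bool, j.length = n + K ∧ ∀ x : List Bool, x.length = n →
      code b e (pairBits x (pairBits (bits (T n)) j)) ∉ D := by
    intro n
    by_contra hcon
    push Not at hcon
    have h1 : ∀ i : Fin (2 ^ (n + K)), ∃ x : List Bool, x.length = n ∧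
        code b e (pairBits x (pairBits (bits (T n)) (bitsOf (n + K) i))) ∈ D :=
      fun i => hcon _ (length_bitsOf _ _)
    choose x hx1 hx2 using h1
    set L : ℕ := e + 2 + (b e).eval (W.eval (n + (n + K))) + W.eval (n + (n + K)) with hL
    have hlen : ∀ i, (code b e (pairBits (x i) (pairBits (bits (T n))
        (bitsOf (n + K) i)))).length ≤ L := by
      intro i
      rw [length_code', length_pairBits, length_pairBits, length_bitsOf, hx1]
      have h2 := hTl n
      have h3 : τ.eval n ≤ τ.eval (n + (n + K)) := eval_mono τ (by omega)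
      have h4 : 2 * n + 1 + (2 * (bits (T n)).length + 1 + (n + K)) ≤ W.eval (n + (n + K)) := by
        rw [hWe]
        omega
      have h5 := eval_mono (b e) h4
      omega
    have hinj : Function.Injective (fun i : Fin (2 ^ (n + K)) =>
        code b e (pairBits (x i) (pairBits (bits (T n)) (bitsOf (n + K) i)))) := by
      intro i i' h
      have h2 := (code_inj b h).2
      have h3 := congrArg (fun z => (unpair (unpair z).2).2) h2
      simp only [unpair_pairBits] at h3
      exact Fin.ext (bitsOf_inj i.2 i'.2 h3)
    have h2 : 2 ^ (n + K) ≤ {w : List Bool | w ∈ D ∧ w.length ≤ L}.ncard := by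
      rw [Set.ncard_eq_toFinset_card _ (hfin L)]
      have h3 := Finset.card_le_card_of_injOn (s := Finset.univ)
        (t := (hfin L).toFinset) (fun i : Fin (2 ^ (n + K)) =>
        code b e (pairBits (x i) (pairBits (bits (T n)) (bitsOf (n + K) i))))
        (fun i _ => by
          rw [Set.Finite.coe_toFinset]
          exact ⟨hx2 i, hlen i⟩) hinj.injOn
      rw [Finset.card_univ, Fintype.card_fin] at h3
      exact h3
    have h3 := h2.trans (hp L)
    have h4 := hK' (n + K) (by omega)
    rw [hQe] at h4
    have h5 : L ≤ e + 2 + (b e).eval (W.eval (2 * (n + K))) + W.eval (2 * (n + K)) := by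
      have h6 : W.eval (n + (n + K)) ≤ W.eval (2 * (n + K)) := eval_mono W (by omega)
      have h7 := eval_mono (b e) h6
      omega
    have h8 := eval_mono p h5
    omega
  choose J hJ1 hJ2 using hidx
  refine ⟨{y | A (code b e y) = true}, fun n => pairBits (bits (T n)) (J n),
    2 * τ + 1 + (Polynomial.X + Polynomial.C K), ?_, ?_, ?_⟩
  · refine ⟨_, IsFP.tt (A := A) (Q := fun y => [code b e y]) (H := fun p => p.2)
      (Poly.cons (poly_code b e) (NPC.Poly.const [])) (Poly.snd Poly.id), fun y => ?_⟩
    simp
  · intro n
    rw [length_pairBits, hJ1]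
    have := hTl n
    simp only [Polynomial.eval_add, Polynomial.eval_mul, Polynomial.eval_X, Polynomial.eval_C,
      Polynomial.eval_one]
    have h2 : Polynomial.eval n (2 : Polynomial ℕ) = 2 := by simp
    rw [h2]
    omega
  · intro x
    show P e A x ↔ A (code b e (pairBits x (pairBits (bits (T x.length)) (J x.length)))) = true
    have h1 : A (code b e (pairBits x (pairBits (bits (T x.length)) (J x.length)))) =
        B (code b e (pairBits x (pairBits (bits (T x.length)) (J x.length)))) :=
      patch_of_not_mem D B (hJ2 x.length x rfl) R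
    rw [h1, hB, Phi_code b (VV D P) _ (fun e A A' z h => VV_loc D P b hP e A A' z h) e]
    unfold VV
    simp only [unpair_pairBits, dec_bits]
    apply hP
    intro w hw
    by_cases hwD : w ∈ D
    · rw [patch_of_mem D _ hwD, hA, patch_of_mem D _ hwD]
      have := hT3 x.length w hwD hw
      cases h : R w with
      | true => simp [this.2 h]
      | false =>
        have h2 : w ∉ T x.length := fun h3 => by
          rw [this.1 h3] at h
          exact absurd h (by decide)
        simp [h2]
    · rw [patch_of_not_mem D _ hwD, hA, patch_of_not_mem D _ hwD, hB]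
      rfl

end Pool.Agent.H440P.Rob
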