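import Pool.Agent.H440P.Main2
import Pool.Agent.H440P.N4c
import Pool.Agent.H274R3.Sharp.Par

/-!
# The number of the elements of the oracle in a cylinder is a function in `#P`
-/

set_option autoImplicit false

namespace Pool.Agent.H440P

open Pool.Agent.NPC hiding inp
open Pool.Agent.H620R2.Gauge Finset H568R2 Pool.Agent.H676
open Pool.Agent.H943R3.PP
open Pool.Agent.H943R3.PP.N4 (poly_take poly_drop bn length_unpair card_lt card_split)
open Pool.Agent.H249R3.Sub (cylLang)
open Pool.Agent.H274R3.Sharp (IsSharpP IsFPNum)

/-- the prefix -/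
def qx (z : List Bool) : List Bool := (unpair (unpair z).2).1

/-- the string whose length is the number of the free bits -/
def qu (z : List Bool) : List Bool := (unpair (unpair z).2).2

/-- the questions -/
def QS (z : List Bool) : List (List Bool) := [qx z ++ (unpair z).1.take (qu z).length]

/-- the output -/
def HS (p : List Bool × List Bool) : List Bool :=
  if valB ((unpair p.1).1.drop (qu p.1).length) < 1 then p.2 else []

theorem poly_qx : Poly qx := Poly.fst (poly_unpair.comp (Poly.snd poly_unpair))

theorem poly_qu : Poly qu := Poly.snd (poly_unpair.comp (Poly.snd poly_unpair))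

theorem poly_QS : Poly QS :=
  Poly.cons (Poly.append poly_qx (poly_take (Poly.fst poly_unpair) (UPoly.length poly_qu)))
    (NPC.Poly.const [])

theorem poly_HS : Poly HS := by
  unfold HS
  refine Poly.ite (Poly.decide_lt ?_ (NPC.Poly.const 1)) (Poly.snd Poly.id) (NPC.Poly.const _)
  exact Poly.valBits ((poly_drop (Poly.fst poly_unpair) (UPoly.length poly_qu)).comp
    (Poly.fst Poly.id))

theorem cntC_sharp (A : Oracle) : IsSharpP A (cntC A) := by
  classical
  refine ⟨_, Polynomial.X, IsFP.tt (A := A) poly_QS poly_HS, fun z => ?_⟩
  rw [Polynomial.eval_X]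
  have hn : (unpair z).2.length ≤ z.length := length_unpair z
  obtain ⟨s, hs⟩ := Nat.exists_eq_add_of_le hn
  set x := (unpair z).1 with hx
  set n := (unpair z).2.length with hnn
  have e1 : Nat.card {w : Fin z.length → Bool //
      HS (pairBits (List.ofFn w) z, (QS (pairBits (List.ofFn w) z)).map A) = [true]} =
      Nat.card {w : Fin (n + s) → Bool // (fun l l' : List Bool =>
        valB l' < 1 ∧ A (x ++ l) = true) ((List.ofFn w).take n) ((List.ofFn w).drop n)} := by
    rw [hs]
    apply Nat.card_congr
    refine Equiv.subtypeEquivRight fun w => ?_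
    unfold HS QS qu qx
    simp only [List.map_cons, List.map_nil]
    rw [unpair_pairBits]
    simp only
    rw [← hx, ← hnn]
    constructor
    · intro h
      split_ifs at h with h1
      exact ⟨h1, by simpa using h⟩
    · rintro ⟨h1, h2⟩
      rw [if_pos h1, h2]
  have e2 := card_split n s (fun l l' : List Bool => valB l' < 1 ∧ A (x ++ l) = true)
  have e3 : ∀ a : Fin n → Bool, Nat.card {v : Fin s → Bool //
      valB (List.ofFn v) < 1 ∧ A (x ++ List.ofFn a) = true} = bn (A (x ++ List.ofFn a)) := by
    intro a
    cases h : A (x ++ List.ofFn a) with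
    | false =>
      have : IsEmpty {v : Fin s → Bool // valB (List.ofFn v) < 1 ∧ false = true} :=
        ⟨fun v => by simpa using v.2.2⟩
      rw [Nat.card_of_isEmpty]
      rfl
    | true =>
      have h1 := card_lt s 1 Nat.one_le_two_pow
      simp only [and_true]
      rw [h1]
      rfl
  refine Eq.symm (e1.trans (e2.trans ?_))
  rw [Finset.sum_congr rfl fun a _ => e3 a]
  exact sum_bn A z

theorem odd_cntC (A : Oracle) : {z | Odd (cntC A z)} = cylLang A := rfl

end Pool.Agent.H440P
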