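import Pool.Agent.H440P.Rob
import Pool.Agent.H440P.Sharp
import Pool.Agent.H274R3.Sharp.Final
import Pool.Agent.H943R3.PP.N2

/-!
# Sparse sets: polynomial space and counting
-/

set_option autoImplicit false

namespace Pool.Agent.H440P.Rob

open Pool.Agent.NPC hiding inp
open Pool.Agent.H620R2.Gauge Pool.Agent.H620R2.Gauge.CC Finset Pool.Agent.H249R3.Sub
open Pool.Agent.H622R2 Pool.Agent.H943R3.PP
open Pool.Agent.H274R3.Sharp (IsSharpP IsFPNum cnt exists_pair_enum)

theorem WithAdvice.mono {C C' : Set (List Bool) → Prop} (h : ∀ L, C L → C' L)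
    {L : Set (List Bool)} (hL : WithAdvice C L) : WithAdvice C' L := by
  obtain ⟨L', f, p, h1, h2, h3⟩ := hL
  exact ⟨L', f, p, h _ h1, h2, h3⟩

theorem isPH_of_isP {A : Oracle} {L : Set (List Bool)} (h : IsP A L) : IsPH A L := by
  obtain ⟨V, hV, hL⟩ := h
  exact ⟨V, 0, 0, hV, fun x => hL x⟩

theorem isNP_of_isP {A : Oracle} {L : Set (List Bool)} (h : IsP A L) : IsNP A L := by
  obtain ⟨V, hV, hL⟩ := h
  refine ⟨_, 0, hV.precomp (Poly.snd poly_unpair), fun x => ?_⟩
  rw [hL]
  simp only [unpair_pairBits]
  exact ⟨fun h => ⟨[], Nat.zero_le _, h⟩, fun ⟨_, _, h⟩ => h⟩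

/-- For a sparse set there is an oracle such that after all changes on the set `PSPACE` is
contained in `P` with advice. -/
theorem robust_pspace (D : Set (List Bool)) (hD : Sparse D) : ∃ B : Oracle, ∀ (R : Oracle)
    (L : Set (List Bool)), IsPSPACE (patch D R B) L → WithAdvice (IsP (patch D R B)) L := by
  obtain ⟨g, hg⟩ := exists_enum
  choose b hb using fun e : ℕ => act_length (g e).1 (g e).2
  obtain ⟨B, hB⟩ := robust D hD (fun e A x => Acc (g e).1 (cut ((b e).eval x.length) A) x) b (by
    intro e A A' x h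
    have hcut : cut ((b e).eval x.length) A = cut ((b e).eval x.length) A' := by
      funext z
      unfold cut
      split_ifs with hz
      · exact h z hz
      · rfl
    rw [hcut])
  refine ⟨B, fun R L hL => ?_⟩
  obtain ⟨M, p, hM⟩ := hL
  obtain ⟨e, he⟩ := hg (M, p)
  set A := patch D R B with hA
  have h1 := hB R e
  have h2 : L = {x | Acc (g e).1 (cut ((b e).eval x.length) A) x} := by
    ext x
    rw [Set.mem_ofPred_eq]
    have hbe := hb e
    rw [he] at hbe ⊢
    obtain ⟨hM1, s, z, hs, hz, hL⟩ := hM x
    have hcong : ∀ s, M.Reach (cut ((b e).eval x.length) A) x s ↔ M.Reach A x s := by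
      refine reach_congr (fun s => s.length ≤ p.eval x.length) hM1 ?_
      intro s q h1 h2
      have h3 := hbe x s h1
      rw [h2, List.length_cons] at h3
      unfold cut
      rw [if_pos (by omega)]
    constructor
    · intro hx
      refine ⟨s, (hcong s).2 hs, ?_⟩
      rw [hz, hL.1 hx]
    · rintro ⟨t, ht, ht2⟩
      have hst := reach_unique hs ((hcong t).1 ht) ⟨_, hz⟩ ⟨_, ht2⟩
      rw [hst, ht2] at hz
      simp only [List.cons.injEq, true_and] at hz
      exact hL.2 hz.symm
  rw [h2]
  exact h1

/-- For a sparse set there is an oracle such that after all changes on the set all binary digits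
of functions in `#P` are in `P` with advice. -/
theorem robust_sharp (D : Set (List Bool)) (hD : Sparse D) : ∃ B : Oracle, ∀ (R : Oracle)
    (g : List Bool → ℕ), IsSharpP (patch D R B) g →
      WithAdvice (IsP (patch D R B)) {y | (g (unpair y).1).testBit (unpair y).2.length = true} ∧
      WithAdvice (IsP (patch D R B)) {x | Odd (g x)} := by
  obtain ⟨al, hal⟩ := exists_pair_enum
  choose qb hqb using fun e : ℕ => (al e).1.out_local
  obtain ⟨B, hB⟩ := robust D hD
    (fun e A y => (cnt (al e) A (unpair y).1).testBit (unpair y).2.length = true)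
    (fun e => (qb e).comp (2 * (al e).2 + 1 + Polynomial.X)) (by
      intro e A A' y h
      have key : cnt (al e) A (unpair y).1 = cnt (al e) A' (unpair y).1 := by
        unfold Pool.Agent.H274R3.Sharp.cnt
        refine Nat.card_congr (Equiv.subtypeEquivRight fun w => ?_)
        obtain ⟨Q, _, hQ1, hQ2⟩ := hqb e A' (pairBits (List.ofFn w) (unpair y).1)
        rw [hQ2 A fun q hq => ?_]
        apply h
        refine (hQ1 q hq).trans ?_
        have e1 : ((qb e).comp (2 * (al e).2 + 1 + Polynomial.X)).eval y.length =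
            (qb e).eval (2 * (al e).2.eval y.length + 1 + y.length) := by
          simp [Polynomial.eval_comp]
        rw [e1]
        apply eval_mono
        have h1 := Adv.length_unpair1 y
        have h2 := eval_mono (al e).2 h1
        rw [length_pairBits, List.length_ofFn]
        omega
      rw [key])
  refine ⟨B, fun R g hg => ?_⟩
  obtain ⟨F, p, ⟨Mf, hMf⟩, hg⟩ := hg
  obtain ⟨e, he⟩ := hal (Mf, p)
  set A := patch D R B with hA
  have hgc : ∀ x, g x = cnt (al e) A x := by
    intro x
    rw [hg, he]
    unfold Pool.Agent.H274R3.Sharp.cnt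
    refine Nat.card_congr (Equiv.subtypeEquivRight fun w => ?_)
    rw [hMf, Option.some.injEq]
  have h1 : WithAdvice (IsP A) {y | (g (unpair y).1).testBit (unpair y).2.length = true} := by
    have h2 := hB R e
    simp only [← hA, ← hgc] at h2
    exact h2
  refine ⟨h1, ?_⟩
  obtain ⟨L', f, q, ⟨V, hV, hVL⟩, hf, hL⟩ := h1
  refine ⟨{y | pairBits (pairBits (unpair y).1 []) (unpair y).2 ∈ L'}, fun n => f (2 * n + 1),
    q.comp (2 * Polynomial.X + 1), ⟨_, hV.precomp (poly_pairBits (poly_pairBits
      (Poly.fst poly_unpair) (NPC.Poly.const [])) (Poly.snd poly_unpair)), fun y => hVL _⟩,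
    fun n => ?_, fun x => ?_⟩
  · refine (hf _).trans (le_of_eq ?_)
    simp [Polynomial.eval_comp]
  · have h3 := hL (pairBits x [])
    rw [Set.mem_ofPred_eq, unpair_pairBits, length_pairBits] at h3
    simp only [List.length_nil, Nat.add_zero] at h3
    rw [Set.mem_ofPred_eq, Set.mem_ofPred_eq, unpair_pairBits]
    simp only
    rw [← h3, Nat.testBit_zero, decide_eq_true_iff, Nat.odd_iff]

end Pool.Agent.H440P.Rob
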